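import Pool.Agent.Lib_helper9.FPP.Defs

/-! # Block CG2 -/

set_option autoImplicit false

open scoped BigOperators

namespace Pool.Agent.Lib_helper9.FPP

namespace CG2

variable {d : ℕ}

lemma endpt_append (x : Fin d → ℤ) (l₁ l₂ : List (Step d)) :
    endpt x (l₁ ++ l₂) = endpt (endpt x l₁) l₂ := by
  induction l₁ generalizing x with
  | nil => rfl
  | cons s l ih => simp only [List.cons_append, endpt, ih]

lemma walkEdges_append (n : ℕ) (x : Fin d → ℤ) (l₁ l₂ : List (Step d)) :
    walkEdges n x (l₁ ++ l₂) = walkEdges n x l₁ ++ walkEdges n (endpt x l₁) l₂ := by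
  induction l₁ generalizing x with
  | nil => rfl
  | cons s l ih => simp only [List.cons_append, walkEdges, endpt, ih]

lemma walkEdges_length (n : ℕ) (x : Fin d → ℤ) (l : List (Step d)) :
    (walkEdges n x l).length = l.length := by
  induction l generalizing x with
  | nil => rfl
  | cons s l ih => simp only [walkEdges, List.length_cons, ih]

lemma pos_zero (x : Fin d → ℤ) (l : List (Step d)) : pos x l 0 = x := by
  simp [pos, endpt]

lemma pos_length (x : Fin d → ℤ) (l : List (Step d)) : pos x l l.length = endpt x l := by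
  simp [pos]

lemma pos_cons_succ (x : Fin d → ℤ) (s : Step d) (l : List (Step d)) (j : ℕ) :
    pos x (s :: l) (j + 1) = pos (x + stepVec s) l j := by
  simp [pos, endpt]

lemma pos_succ (x : Fin d → ℤ) (l : List (Step d)) (j : ℕ) (hj : j < l.length) :
    pos x l (j + 1) = pos x l j + stepVec l[j] := by
  induction l generalizing x j with
  | nil => simp at hj
  | cons s l ih =>
    cases j with
    | zero => rw [pos_cons_succ, pos_zero, pos_zero]; rfl
    | succ j =>
      rw [pos_cons_succ, pos_cons_succ, ih]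
      · rfl

lemma walkEdges_getElem (n : ℕ) (x : Fin d → ℤ) (l : List (Step d)) (j : ℕ) (hj : j < l.length)
    (hj' : j < (walkEdges n x l).length) :
    (walkEdges n x l)[j] = edgeOf n (pos x l j) l[j] := by
  induction l generalizing x j with
  | nil => simp at hj
  | cons s l ih =>
    cases j with
    | zero => rw [pos_zero]; rfl
    | succ j =>
      rw [pos_cons_succ]
      simp only [walkEdges, List.getElem_cons_succ]
      rw [ih]

lemma abs_stepVec_le (s : Step d) (α : Fin d) : |stepVec s α| ≤ 1 := by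
  unfold stepVec
  by_cases h : s.2 <;> simp only [h, if_true] <;> by_cases h' : α = s.1
  · subst h'; simp
  · simp [h']
  · subst h'; simp
  · simp [h']

lemma pos_take (x : Fin d → ℤ) (l : List (Step d)) (i j : ℕ) (h : i ≤ j) :
    pos x (l.take j) i = pos x l i := by
  unfold pos
  rw [List.take_take, min_eq_left h]

lemma pos_append_right (x : Fin d → ℤ) (l₁ l₂ : List (Step d)) (i : ℕ) :
    pos x (l₁ ++ l₂) (l₁.length + i) = pos (endpt x l₁) l₂ i := by
  unfold pos
  rw [List.take_length_add_append, endpt_append]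

lemma SAW_take (x : Fin d → ℤ) (l : List (Step d)) (j : ℕ) (h : SAW x l) :
    SAW x (l.take j) := by
  intro i₁ i₂ h₁ h₂ h₃
  rw [List.length_take] at h₁ h₂
  rw [pos_take _ _ _ _ (by omega), pos_take _ _ _ _ (by omega)] at h₃
  exact h i₁ i₂ (by omega) (by omega) h₃

lemma SAW_append_right (x : Fin d → ℤ) (l₁ l₂ : List (Step d)) (h : SAW x (l₁ ++ l₂)) :
    SAW (endpt x l₁) l₂ := by
  intro i₁ i₂ h₁ h₂ h₃
  rw [← pos_append_right, ← pos_append_right] at h₃
  have := h (l₁.length + i₁) (l₁.length + i₂) (by simp; omega) (by simp; omega) h₃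
  omega

/-- First hitting time of sup-distance `r`. -/
lemma first_hit (x : Fin d → ℤ) (l : List (Step d)) (r : ℕ)
    (h : ∃ α, (r : ℤ) ≤ |endpt x l α - x α|) :
    ∃ j ≤ l.length, (∃ α, (r : ℤ) ≤ |pos x l j α - x α|) ∧
      ∀ i ≤ j, ∀ α, |pos x l i α - x α| ≤ (r : ℤ) := by
  classical
  have hex : ∃ j, j ≤ l.length ∧ ∃ α, (r : ℤ) ≤ |pos x l j α - x α| :=
    ⟨l.length, le_rfl, by rw [pos_length]; exact h⟩
  obtain ⟨hj1, hj2⟩ := Nat.find_spec hex
  refine ⟨Nat.find hex, hj1, hj2, ?_⟩
  have hlt : ∀ i < Nat.find hex, ∀ α, |pos x l i α - x α| < (r : ℤ) := by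
    intro i hi α
    have := Nat.find_min hex hi
    by_contra hcon
    exact this ⟨by omega, α, not_lt.1 hcon⟩
  intro i hi α
  rcases hi.lt_or_eq with hi | hi
  · exact (hlt i hi α).le
  · cases i with
    | zero =>
      rw [pos_zero]
      simp
    | succ i =>
      rw [pos_succ x l i (by omega)]
      have h1 := hlt i (by omega) α
      have h2 := abs_stepVec_le l[i] α
      have h3 : (pos x l i + stepVec l[i]) α - x α = (pos x l i α - x α) + stepVec l[i] α := by
        simp only [Pi.add_apply]
        ring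
      rw [h3]
      have h4 := abs_add_le (pos x l i α - x α) (stepVec l[i] α)
      omega

lemma heavyCount_append {n : ℕ} (b : ℝ) (t : TEdge d n → ℝ) (x : Fin d → ℤ)
    (l₁ l₂ : List (Step d)) :
    heavyCount b t x (l₁ ++ l₂) = heavyCount b t x l₁ + heavyCount b t (endpt x l₁) l₂ := by
  unfold heavyCount
  rw [walkEdges_append, List.countP_append]

lemma heavy_of_disp (n : ℕ) (hn : 1 ≤ n) (b c : ℝ) (t : TEdge 2 n → ℝ)
    (hbad : t ∉ Bad n b c) (m : ℕ) : ∀ (x : Fin 2 → ℤ) (l : List (Step 2)), SAW x l →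
      (∃ α, ((m * Nat.sqrt n : ℕ) : ℤ) ≤ |endpt x l α - x α|) →
      c * ((m : ℝ) * Nat.sqrt n) ≤ (heavyCount b t x l : ℝ) := by
  induction m with
  | zero =>
    intro x l _ _
    simp
  | succ m ih =>
    intro x l hs h
    have hu : 1 ≤ Nat.sqrt n := Nat.sqrt_pos.2 hn
    obtain ⟨α, hα⟩ := h
    have h1 : ∃ α, (Nat.sqrt n : ℤ) ≤ |endpt x l α - x α| := by
      refine ⟨α, le_trans ?_ hα⟩
      push_cast
      nlinarith
    obtain ⟨j, hj, ⟨β, hβ⟩, hball⟩ := first_hit x l (Nat.sqrt n) h1
    have hl : l = l.take j ++ l.drop j := (List.take_append_drop j l).symm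
    have h2 : (c * Nat.sqrt n : ℝ) ≤ heavyCount b t x (l.take j) := by
      by_contra hcon
      exact hbad ⟨x, l.take j, SAW_take x l j hs, ⟨β, hβ⟩, not_le.1 hcon⟩
    have hs2 : SAW (endpt x (l.take j)) (l.drop j) := by
      apply SAW_append_right
      rw [← hl]
      exact hs
    have h3 := ih (endpt x (l.take j)) (l.drop j) hs2 (by
      refine ⟨α, ?_⟩
      rw [← endpt_append, ← hl]
      have h4 := hball j le_rfl α
      have h5 : endpt x l α - x α =
        (endpt x l α - endpt x (l.take j) α) + (pos x l j α - x α) := by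
        unfold pos
        ring
      have h6 := abs_add_le (endpt x l α - endpt x (l.take j) α) (pos x l j α - x α)
      rw [← h5] at h6
      push_cast at hα ⊢
      linarith)
    have h7 : heavyCount b t x l =
        heavyCount b t x (l.take j) + heavyCount b t (endpt x (l.take j)) (l.drop j) := by
      rw [← heavyCount_append, ← hl]
    rw [h7]
    push_cast
    linarith

lemma base_cases (x : Fin d → ℤ) (s : Step d) :
    (stepBase x s = x ∧ x + stepVec s = stepBase x s + Pi.single s.1 1) ∨
      (stepBase x s = x + stepVec s ∧ x = stepBase x s + Pi.single s.1 1) := by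
  unfold stepBase stepVec
  by_cases h : s.2
  · left
    simp [h]
  · right
    simp only [h]
    constructor
    · simp
    · ext i
      by_cases h' : i = s.1
      · subst h'; simp
      · simp [h']

lemma walkEdges_nodup (n : ℕ) (x : Fin d → ℤ) (l : List (Step d)) (hs : SAW x l) (r : ℕ)
    (hr : 2 * r < n) (hb : ∀ i ≤ l.length, ∀ α, |pos x l i α - x α| ≤ (r : ℤ)) :
    (walkEdges n x l).Nodup := by
  rw [List.nodup_iff_pairwise_ne, List.pairwise_iff_getElem]
  intro i j hi hj hij
  rw [walkEdges_length] at hi hj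
  rw [walkEdges_getElem n x l i hi, walkEdges_getElem n x l j hj]
  intro heq
  have hdir : l[i].1 = l[j].1 := congrArg Prod.snd heq
  have hbase : ∀ (k : ℕ) (hk : k < l.length) (α : Fin d),
      |stepBase (pos x l k) l[k] α - x α| ≤ (r : ℤ) := by
    intro k hk α
    rcases base_cases (pos x l k) l[k] with ⟨h, _⟩ | ⟨h, _⟩
    · rw [h]
      exact hb k hk.le α
    · rw [h, ← pos_succ x l k hk]
      exact hb (k + 1) hk α
  have hbb : stepBase (pos x l i) l[i] = stepBase (pos x l j) l[j] := by
    ext α
    have h1 := congrFun (congrArg Prod.fst heq) α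
    simp only [edgeOf] at h1
    have h2 := (ZMod.intCast_eq_intCast_iff_dvd_sub _ _ n).1 h1
    have h3 := hbase i hi α
    have h4 := hbase j hj α
    have h5 := Int.eq_zero_of_abs_lt_dvd h2 (by
      rw [abs_lt]
      rw [abs_le] at h3 h4
      constructor <;> omega)
    omega
  have h6 : pos x l i = stepBase (pos x l i) l[i] ∨
      pos x l i = stepBase (pos x l i) l[i] + Pi.single l[i].1 1 := by
    rcases base_cases (pos x l i) l[i] with ⟨h, _⟩ | ⟨_, h⟩
    · exact Or.inl h.symm
    · exact Or.inr h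
  have h7 : ∀ y, (y = stepBase (pos x l j) l[j] ∨
      y = stepBase (pos x l j) l[j] + Pi.single l[j].1 1) → y = pos x l j ∨ y = pos x l (j + 1) := by
    intro y hy
    rw [pos_succ x l j hj]
    rcases base_cases (pos x l j) l[j] with ⟨h, h'⟩ | ⟨h, h'⟩
    · rw [h', h]
      rw [h] at hy
      exact hy
    · rcases hy with hy | hy
      · right
        rw [hy, h]
      · left
        rw [hy, ← h']
  rw [hbb, hdir] at h6
  rcases h7 _ h6 with h | h
  · have := hs i j hi.le hj.le h
    omega
  · have := hs i (j + 1) hi.le hj h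
    omega

end CG2

open CG2 in
/-- CG2 (many distinct heavy edges). -/
theorem many_heavy_proof (n : ℕ) (hn : 100 ≤ n) (b c : ℝ) (hc : 0 ≤ c) (t : TEdge 2 n → ℝ)
    (hbad : t ∉ Bad n b c) (x : Fin 2 → ℤ) (l : List (Step 2)) (hs : SAW x l)
    (hl : endpt x l = x + Pi.single 0 (n : ℤ)) :
    ∃ D : Finset (TEdge 2 n), (∀ e ∈ D, e ∈ walkEdges n x l ∧ b ≤ t e) ∧
      c * ((n : ℝ) / 4) ≤ (D.card : ℝ) := by
  classical
  set r := (n - 1) / 2 with hr
  have hr2 : 2 * r < n := by omega
  have h1 : ∃ α, (r : ℤ) ≤ |endpt x l α - x α| := by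
    refine ⟨0, ?_⟩
    rw [hl]
    simp only [Pi.add_apply, Pi.single_eq_same]
    have : x 0 + (n : ℤ) - x 0 = n := by ring
    rw [this, abs_of_nonneg (by positivity)]
    omega
  obtain ⟨j, hj, ⟨β, hβ⟩, hball⟩ := first_hit x l r h1
  have hlen : (l.take j).length = j := by rw [List.length_take]; omega
  have hnd : (walkEdges n x (l.take j)).Nodup := by
    apply walkEdges_nodup n x (l.take j) (SAW_take x l j hs) r hr2
    intro i hi α
    rw [hlen] at hi
    rw [pos_take _ _ _ _ hi]
    exact hball i hi α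
  refine ⟨((walkEdges n x (l.take j)).filter (fun e => decide (b ≤ t e))).toFinset, ?_, ?_⟩
  · intro e he
    rw [List.mem_toFinset, List.mem_filter] at he
    refine ⟨?_, by simpa using he.2⟩
    have h2 : l = l.take j ++ l.drop j := (List.take_append_drop j l).symm
    rw [h2, walkEdges_append]
    exact List.mem_append_left _ he.1
  · rw [List.toFinset_card_of_nodup (hnd.filter _), ← List.countP_eq_length_filter]
    have h3 := heavy_of_disp n (by omega) b c t hbad (r / Nat.sqrt n) x (l.take j)
      (SAW_take x l j hs) ⟨β, by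
        refine le_trans ?_ hβ
        have := Nat.div_mul_le_self r (Nat.sqrt n)
        exact_mod_cast this⟩
    have h4 : (heavyCount b t x (l.take j) : ℝ) =
        (((walkEdges n x (l.take j)).countP (fun e => decide (b ≤ t e)) : ℕ) : ℝ) := by
      unfold heavyCount
      congr
    rw [← h4]
    refine le_trans ?_ h3
    apply mul_le_mul_of_nonneg_left _ hc
    have hu : 10 ≤ Nat.sqrt n := by
      rw [Nat.le_sqrt]
      omega
    have hu2 : Nat.sqrt n * Nat.sqrt n ≤ n := Nat.sqrt_le n
    have h5 : r < (r / Nat.sqrt n) * Nat.sqrt n + Nat.sqrt n := by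
      have := Nat.lt_div_mul_add (a := r) (b := Nat.sqrt n) (by omega)
      exact this
    have h6 : n ≤ 4 * ((r / Nat.sqrt n) * Nat.sqrt n) := by
      have h7 : 10 * Nat.sqrt n ≤ n := by nlinarith
      omega
    have h8 : (n : ℝ) ≤ 4 * (((r / Nat.sqrt n : ℕ) : ℝ) * (Nat.sqrt n : ℝ)) := by
      exact_mod_cast h6
    linarith

end Pool.Agent.Lib_helper9.FPP
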