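import Pool.Agent.Lib_helper9.FPP.Defs

/-! # Block GEO1 -/

set_option autoImplicit false

open scoped BigOperators

namespace Pool.Agent.Lib_helper9.FPP

lemma geo1_sum_block (M : ℕ) (n : ℕ) (F : ℕ → ℝ) :
    ∑ i ∈ Finset.range (n * M), F i =
      ∑ i ∈ Finset.range n, ∑ j ∈ Finset.range M, F (i * M + j) := by
  induction n with
  | zero => simp
  | succ n ih =>
    rw [Nat.succ_mul, Finset.sum_range_add, ih, Finset.sum_range_succ]

lemma geo1_block (M : ℕ) (hM : 1 ≤ M) (f : ℕ → ℝ) :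
    ∑ j ∈ Finset.range M, (f (j + 1) - f j) ^ 2 - (f M - f 0) ^ 2 / M =
      ∑ j ∈ Finset.range M, (f (j + 1) - f j - (f M - f 0) / M) ^ 2 := by
  have hM0 : (M : ℝ) ≠ 0 := by positivity
  have h1 : ∑ j ∈ Finset.range M, (f (j + 1) - f j) = f M - f 0 := Finset.sum_range_sub f M
  have h2 : ∀ j ∈ Finset.range M, (f (j + 1) - f j - (f M - f 0) / M) ^ 2 =
      (f (j + 1) - f j) ^ 2 - 2 * ((f M - f 0) / M) * (f (j + 1) - f j) + ((f M - f 0) / M) ^ 2 := by
    intro j _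
    ring
  rw [Finset.sum_congr rfl h2, Finset.sum_add_distrib, Finset.sum_sub_distrib, ← Finset.mul_sum,
    h1]
  simp only [Finset.sum_const, Finset.card_range, nsmul_eq_mul]
  field_simp
  ring

lemma geo1_block_nonneg (M : ℕ) (hM : 1 ≤ M) (f : ℕ → ℝ) :
    0 ≤ ∑ j ∈ Finset.range M, (f (j + 1) - f j) ^ 2 - (f M - f 0) ^ 2 / M := by
  rw [geo1_block M hM f]
  exact Finset.sum_nonneg fun j _ => sq_nonneg _

lemma geo1_block_drop (M : ℕ) (hM : 1 ≤ M) (f : ℕ → ℝ) (L : ℝ) (hL : 0 ≤ L) (j : ℕ) (hj : j ≤ M)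
    (h : M * L < |M * (f j - f 0) - j * (f M - f 0)|) :
    L ^ 2 / M ≤ ∑ j ∈ Finset.range M, (f (j + 1) - f j) ^ 2 - (f M - f 0) ^ 2 / M := by
  rw [geo1_block M hM f]
  have hMp : (0 : ℝ) < M := by exact_mod_cast hM
  set d := (f M - f 0) / M with hd
  have h1 : ∑ i ∈ Finset.range j, (f (i + 1) - f i - d) = f j - f 0 - j * d := by
    rw [Finset.sum_sub_distrib, Finset.sum_range_sub f j]
    simp
  have h2 : (f j - f 0 - j * d) ^ 2 ≤ j * ∑ i ∈ Finset.range j, (f (i + 1) - f i - d) ^ 2 := by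
    rw [← h1]
    have := sq_sum_le_card_mul_sum_sq (s := Finset.range j) (f := fun i => f (i + 1) - f i - d)
    simpa using this
  have h3 : ∑ i ∈ Finset.range j, (f (i + 1) - f i - d) ^ 2 ≤
      ∑ i ∈ Finset.range M, (f (i + 1) - f i - d) ^ 2 := by
    apply Finset.sum_le_sum_of_subset_of_nonneg
    · exact Finset.range_mono hj
    · intro i _ _
      exact sq_nonneg _
  have h4 : M * (f j - f 0 - j * d) = M * (f j - f 0) - j * (f M - f 0) := by
    rw [hd]
    field_simp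
  have h5 : L < |f j - f 0 - j * d| := by
    rw [← h4, abs_mul, abs_of_pos hMp] at h
    exact lt_of_mul_lt_mul_left h hMp.le
  have h6 : L ^ 2 ≤ (f j - f 0 - j * d) ^ 2 := by
    rw [← sq_abs (f j - f 0 - j * d)]
    exact pow_le_pow_left₀ hL h5.le 2
  have h7 : (j : ℝ) ≤ M := by exact_mod_cast hj
  rw [div_le_iff₀ hMp]
  have h8 : 0 ≤ ∑ i ∈ Finset.range M, (f (i + 1) - f i - d) ^ 2 :=
    Finset.sum_nonneg fun j _ => sq_nonneg _
  calc L ^ 2 ≤ (f j - f 0 - j * d) ^ 2 := h6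
    _ ≤ j * ∑ i ∈ Finset.range j, (f (i + 1) - f i - d) ^ 2 := h2
    _ ≤ j * ∑ i ∈ Finset.range M, (f (i + 1) - f i - d) ^ 2 := by gcongr
    _ ≤ M * ∑ i ∈ Finset.range M, (f (i + 1) - f i - d) ^ 2 := by gcongr
    _ = _ := by ring

/-- The energy at scale `k`. -/
noncomputable def geoE (M R k : ℕ) (p : ℕ → Fin 2 → ℤ) : ℝ :=
  ∑ α : Fin 2, ∑ i ∈ Finset.range (R / M ^ k),
    (((p ((i + 1) * M ^ k) α : ℤ) : ℝ) - (p (i * M ^ k) α : ℤ)) ^ 2 / (M : ℝ) ^ k

lemma geoE_nonneg (M R k : ℕ) (p : ℕ → Fin 2 → ℤ) : 0 ≤ geoE M R k p := by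
  unfold geoE
  positivity

lemma geoE_zero (M R u : ℕ) (p : ℕ → Fin 2 → ℤ) (hp : Lip u p) :
    geoE M R 0 p ≤ 2 * R * (u : ℝ) ^ 2 := by
  unfold geoE
  have h : ∀ α : Fin 2, ∑ i ∈ Finset.range (R / M ^ 0),
      (((p ((i + 1) * M ^ 0) α : ℤ) : ℝ) - (p (i * M ^ 0) α : ℤ)) ^ 2 / (M : ℝ) ^ 0 ≤
      R * (u : ℝ) ^ 2 := by
    intro α
    have h1 : ∀ i ∈ Finset.range (R / M ^ 0),
      (((p ((i + 1) * M ^ 0) α : ℤ) : ℝ) - (p (i * M ^ 0) α : ℤ)) ^ 2 / (M : ℝ) ^ 0 ≤
        (u : ℝ) ^ 2 := by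
      intro i _
      simp only [pow_zero, mul_one, div_one]
      have h2 := hp i α
      have h3 : |((p (i + 1) α : ℤ) : ℝ) - (p i α : ℤ)| ≤ (u : ℝ) := by exact_mod_cast h2
      rw [← sq_abs]
      exact pow_le_pow_left₀ (abs_nonneg _) h3 2
    refine (Finset.sum_le_sum h1).trans ?_
    simp
  calc _ ≤ ∑ α : Fin 2, R * (u : ℝ) ^ 2 := Finset.sum_le_sum fun α _ => h α
    _ = _ := by simp; ring

/-- The number of nonflat pieces. -/
noncomputable def geoN (M R k u : ℕ) (p : ℕ → Fin 2 → ℤ) : ℕ := by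
  classical exact ((Finset.range (R / M ^ (k + 1))).filter (fun i => NonFlat M k u p i)).card

lemma geoE_step (M : ℕ) (hM : 2 ≤ M) (u : ℕ) (R k : ℕ)
    (hR : M ^ (k + 1) ∣ R) (p : ℕ → Fin 2 → ℤ) :
    (geoN M R k u p : ℝ) * ((u : ℝ) ^ 2 * (M : ℝ) ^ k / M) ≤ geoE M R k p - geoE M R (k + 1) p := by
  classical
  have hM1 : 1 ≤ M := by omega
  have hMp : (0 : ℝ) < M := by exact_mod_cast hM1
  obtain ⟨N, hN⟩ := hR
  have hd1 : R / M ^ (k + 1) = N := by
    rw [hN]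
    exact Nat.mul_div_cancel_left N (by positivity)
  have hd2 : R / M ^ k = N * M := by
    rw [hN, pow_succ, mul_assoc, Nat.mul_div_cancel_left _ (by positivity), mul_comm]
  -- the drop of one piece and one coordinate
  let f : Fin 2 → ℕ → ℕ → ℝ := fun α i j => ((p (i * M ^ (k + 1) + j * M ^ k) α : ℤ) : ℝ)
  let D : Fin 2 → ℕ → ℝ := fun α i =>
    ∑ j ∈ Finset.range M, (f α i (j + 1) - f α i j) ^ 2 - (f α i M - f α i 0) ^ 2 / M
  have hD0 : ∀ α i, 0 ≤ D α i := fun α i => geo1_block_nonneg M hM1 (f α i)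
  have hE : geoE M R k p - geoE M R (k + 1) p =
      ∑ i ∈ Finset.range N, (∑ α : Fin 2, D α i) / (M : ℝ) ^ k := by
    unfold geoE
    rw [hd1, hd2, ← Finset.sum_sub_distrib]
    have h1 : ∀ α : Fin 2, (∑ i ∈ Finset.range (N * M),
        (((p ((i + 1) * M ^ k) α : ℤ) : ℝ) - (p (i * M ^ k) α : ℤ)) ^ 2 / (M : ℝ) ^ k) -
        ∑ i ∈ Finset.range N, (((p ((i + 1) * M ^ (k + 1)) α : ℤ) : ℝ) -
          (p (i * M ^ (k + 1)) α : ℤ)) ^ 2 / (M : ℝ) ^ (k + 1) =
        ∑ i ∈ Finset.range N, D α i / (M : ℝ) ^ k := by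
      intro α
      rw [geo1_sum_block, ← Finset.sum_sub_distrib]
      apply Finset.sum_congr rfl
      intro i _
      have h2 : f α i M = ((p ((i + 1) * M ^ (k + 1)) α : ℤ) : ℝ) := by
        show ((p (i * M ^ (k + 1) + M * M ^ k) α : ℤ) : ℝ) = _
        congr 3
        ring
      have h3 : f α i 0 = ((p (i * M ^ (k + 1)) α : ℤ) : ℝ) := by
        show ((p (i * M ^ (k + 1) + 0 * M ^ k) α : ℤ) : ℝ) = _
        congr 3
        ring
      have h4 : ∀ j ∈ Finset.range M,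
          (((p ((i * M + j + 1) * M ^ k) α : ℤ) : ℝ) - (p ((i * M + j) * M ^ k) α : ℤ)) ^ 2 /
            (M : ℝ) ^ k = (f α i (j + 1) - f α i j) ^ 2 / (M : ℝ) ^ k := by
        intro j _
        have h5 : f α i (j + 1) = ((p ((i * M + j + 1) * M ^ k) α : ℤ) : ℝ) := by
          show ((p (i * M ^ (k + 1) + (j + 1) * M ^ k) α : ℤ) : ℝ) = _
          congr 3
          ring
        have h6 : f α i j = ((p ((i * M + j) * M ^ k) α : ℤ) : ℝ) := by
          show ((p (i * M ^ (k + 1) + j * M ^ k) α : ℤ) : ℝ) = _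
          congr 3
          ring
        rw [h5, h6]
      rw [Finset.sum_congr rfl h4, ← h2, ← h3, ← Finset.sum_div]
      show _ = (∑ j ∈ Finset.range M, (f α i (j + 1) - f α i j) ^ 2 -
        (f α i M - f α i 0) ^ 2 / M) / (M : ℝ) ^ k
      rw [sub_div, div_div, ← pow_succ']
    rw [Finset.sum_congr rfl fun α _ => h1 α, Finset.sum_comm]
    apply Finset.sum_congr rfl
    intro i _
    rw [Finset.sum_div]
  rw [hE]
  have hnf : ∀ i, NonFlat M k u p i → (u : ℝ) ^ 2 * (M : ℝ) ^ k / M ≤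
      (∑ α : Fin 2, D α i) / (M : ℝ) ^ k := by
    rintro i ⟨j, hj, α, h⟩
    have h0 : (M : ℝ) * ((u : ℝ) * (M : ℝ) ^ k) <
        |(M : ℝ) * (f α i j - f α i 0) - j * (f α i M - f α i 0)| := by
      have h2 : f α i M = ((p ((i + 1) * M ^ (k + 1)) α : ℤ) : ℝ) := by
        show ((p (i * M ^ (k + 1) + M * M ^ k) α : ℤ) : ℝ) = _
        congr 3
        ring
      have h3 : f α i 0 = ((p (i * M ^ (k + 1)) α : ℤ) : ℝ) := by
        show ((p (i * M ^ (k + 1) + 0 * M ^ k) α : ℤ) : ℝ) = _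
        congr 3
        ring
      rw [h2, h3]
      show _ < |(M : ℝ) * (((p (i * M ^ (k + 1) + j * M ^ k) α : ℤ) : ℝ) - _) - _|
      exact_mod_cast h
    have h1 := geo1_block_drop M hM1 (f α i) ((u : ℝ) * (M : ℝ) ^ k) (by positivity) j hj h0
    have h2 : D α i ≤ ∑ α : Fin 2, D α i :=
      Finset.single_le_sum (f := fun α => D α i) (fun α _ => hD0 α i) (Finset.mem_univ α)
    rw [le_div_iff₀ (by positivity)]
    refine le_trans (le_of_eq ?_) (h1.trans h2)
    ring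
  unfold geoN
  rw [hd1]
  calc ((((Finset.range N).filter (fun i => NonFlat M k u p i)).card : ℕ) : ℝ) *
        ((u : ℝ) ^ 2 * (M : ℝ) ^ k / M)
      = ∑ i ∈ (Finset.range N).filter (fun i => NonFlat M k u p i),
        ((u : ℝ) ^ 2 * (M : ℝ) ^ k / M) := by simp
    _ ≤ ∑ i ∈ (Finset.range N).filter (fun i => NonFlat M k u p i),
        (∑ α : Fin 2, D α i) / (M : ℝ) ^ k := by
        apply Finset.sum_le_sum
        intro i hi
        exact hnf i (Finset.mem_filter.1 hi).2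
    _ ≤ ∑ i ∈ Finset.range N, (∑ α : Fin 2, D α i) / (M : ℝ) ^ k := by
        apply Finset.sum_le_sum_of_subset_of_nonneg (Finset.filter_subset _ _)
        intro i _ _
        have := Finset.sum_nonneg fun (α : Fin 2) (_ : α ∈ Finset.univ) => hD0 α i
        positivity

/-- GEO1: for every sequence with jumps at most `u`, at most `2 M^3` scales are not flat. -/
theorem geo_flat_proof (M : ℕ) (hM : 2 ≤ M) (u : ℕ) (hu : 1 ≤ u) (K R : ℕ) (hR : M ^ K ∣ R)
    (p : ℕ → Fin 2 → ℤ) (hp : Lip u p) (S : Finset ℕ)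
    (hS : ∀ k ∈ S, k < K ∧ ¬ FlatScale M R k u p) : S.card ≤ 2 * M ^ 3 := by
  classical
  have hM1 : 1 ≤ M := by omega
  have hMp : (0 : ℝ) < M := by exact_mod_cast hM1
  have hup : (0 : ℝ) < u := by exact_mod_cast hu
  rcases Nat.eq_zero_or_pos R with hR0 | hRpos
  · have : S = ∅ := by
      rw [Finset.eq_empty_iff_forall_notMem]
      intro k hk
      apply (hS k hk).2
      unfold FlatScale
      simp [hR0]
    simp [this]
  have hRp : (0 : ℝ) < R := by exact_mod_cast hRpos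
  have hdiv : ∀ k < K, M ^ (k + 1) ∣ R := fun k hk => (pow_dvd_pow M (by omega)).trans hR
  -- telescoping
  have h1 : ∑ k ∈ Finset.range K, (geoE M R k p - geoE M R (k + 1) p) =
      geoE M R 0 p - geoE M R K p := Finset.sum_range_sub' _ _
  have h2 : ∑ k ∈ Finset.range K, (geoE M R k p - geoE M R (k + 1) p) ≤ 2 * R * (u : ℝ) ^ 2 := by
    rw [h1]
    have := geoE_nonneg M R K p
    have := geoE_zero M R u p hp
    linarith
  have h3 : ∑ k ∈ S, (u : ℝ) ^ 2 * R / (M : ℝ) ^ 3 ≤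
      ∑ k ∈ Finset.range K, (geoE M R k p - geoE M R (k + 1) p) := by
    have hsub : S ⊆ Finset.range K := fun k hk => Finset.mem_range.2 (hS k hk).1
    refine le_trans ?_ (Finset.sum_le_sum_of_subset_of_nonneg hsub ?_)
    · apply Finset.sum_le_sum
      intro k hk
      obtain ⟨hkK, hnf⟩ := hS k hk
      refine le_trans ?_ (geoE_step M hM u R k (hdiv k hkK) p)
      have h4 : R / M ^ (k + 1) < M * geoN M R k u p := by
        by_contra hcon
        apply hnf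
        unfold FlatScale
        exact not_lt.1 hcon
      obtain ⟨N, hN⟩ := hdiv k hkK
      have hd1 : R / M ^ (k + 1) = N := by
        rw [hN]
        exact Nat.mul_div_cancel_left N (by positivity)
      rw [hd1] at h4
      have h5 : (N : ℝ) ≤ M * geoN M R k u p := by exact_mod_cast h4.le
      have h6 : (R : ℝ) = (M : ℝ) ^ (k + 1) * N := by exact_mod_cast hN
      rw [h6]
      rw [div_le_iff₀ (by positivity)]
      calc (u : ℝ) ^ 2 * ((M : ℝ) ^ (k + 1) * N)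
          ≤ (u : ℝ) ^ 2 * ((M : ℝ) ^ (k + 1) * (M * geoN M R k u p)) := by gcongr
        _ = _ := by
            field_simp
            ring
    · intro k hk _
      have hkK := Finset.mem_range.1 hk
      refine le_trans ?_ (geoE_step M hM u R k (hdiv k hkK) p)
      positivity
  have h4 := h3.trans h2
  rw [Finset.sum_const, nsmul_eq_mul] at h4
  have h5 : (S.card : ℝ) ≤ 2 * (M : ℝ) ^ 3 := by
    have h6 : (S.card : ℝ) * ((u : ℝ) ^ 2 * R / (M : ℝ) ^ 3) =
      (S.card : ℝ) / (M : ℝ) ^ 3 * (R * (u : ℝ) ^ 2) := by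
      field_simp
    rw [h6] at h4
    have h7 : (S.card : ℝ) / (M : ℝ) ^ 3 ≤ 2 := by
      have h8 : (0 : ℝ) < R * (u : ℝ) ^ 2 := by positivity
      rw [mul_assoc] at h4
      exact le_of_mul_le_mul_right h4 h8
    rwa [div_le_iff₀ (by positivity)] at h7
  exact_mod_cast h5

end Pool.Agent.Lib_helper9.FPP
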